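import Pool.Agent.Q204.TS.Main
import Pool.Agent.Q204.LP.Near

/-! # Local marginals to precision `κ / L²`, and the equivalences -/

set_option autoImplicit false

open scoped BigOperators Matrix
open Finset

namespace Pool.Agent.Q204.TS

open Pool.Agent.TH235.PP Pool.Agent.Results.MP_953b23_mp.OverlapBoosting
  Pool.Agent.Results.MP_953b23_mp.ThermalCriterion Pool.Agent.Results.MP_953b23_mp.EveryScale

/-- For all large `L` the vector `Ψ L` is approximated within `δ L` by a PEPS of bond dimension at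
most `exp (C * g L)` whose tensors agree at all sites but one. -/
def ButOneAt {d : ℕ} (Ψ : ∀ L : ℕ, (Site L → Fin d) → ℂ) (g : ℕ → ℝ) (C : ℝ) (δ : ℕ → ℝ) : Prop :=
  ∃ L₀ : ℕ, ∀ (L : ℕ) [NeZero L], L₀ ≤ L → ∃ (D : ℕ) (ψ : (Site L → Fin d) → ℂ),
    (D : ℝ) ≤ Real.exp (C * g L) ∧ IsTIButOne D ψ ∧ Real.sqrt (normSq (ψ - Ψ L)) ≤ δ L

/-- For all large `L` the vector `Ψ L` is approximated within `δ L` by a translation invariant PEPS
of bond dimension at most `exp (C * g L)`. -/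
def TIAt {d : ℕ} (Ψ : ∀ L : ℕ, (Site L → Fin d) → ℂ) (g : ℕ → ℝ) (C : ℝ) (δ : ℕ → ℝ) : Prop :=
  ∃ L₀ : ℕ, ∀ (L : ℕ) [NeZero L], L₀ ≤ L → ∃ (D : ℕ) (ψ : (Site L → Fin d) → ℂ),
    (D : ℝ) ≤ Real.exp (C * g L) ∧ IsTI D ψ ∧ Real.sqrt (normSq (ψ - Ψ L)) ≤ δ L

open scoped Matrix.Norms.L2Operator in
/-- For all large `L` there is a locally purified mixed state of bond dimension at most
`exp (C * g L)` whose reduced density matrices on all translates of the `R × R` box are within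
`κ / L²`, in trace norm, of those of `Ψ L`: the expectations of all operators of norm at most one
differ by at most `κ / L²`. -/
def LocalAt {d : ℕ} (R : ℕ) (Ψ : ∀ L : ℕ, (Site L → Fin d) → ℂ) (g : ℕ → ℝ) (C κ : ℝ) : Prop :=
  ∃ L₀ : ℕ, ∀ (L : ℕ) [NeZero L], L₀ ≤ L →
    ∃ (a D : ℕ) (X : (Site L → Fin a) → (Site L → Fin d) → ℂ),
      (D : ℝ) ≤ Real.exp (C * g L) ∧ IsPurified D X ∧ 0 < ∑ t, normSq (X t) ∧
        ∀ (u : Site L) (B : BoxOp d R), ‖B‖ ≤ 1 →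
          ‖(∑ t, ip (X t) (term B u *ᵥ X t)) / ((∑ t, normSq (X t) : ℝ) : ℂ) -
            ip (Ψ L) (term B u *ᵥ Ψ L)‖ ≤ κ / (L : ℝ) ^ 2

open scoped Matrix.Norms.L2Operator in
lemma entry_le' {n : Type*} [Fintype n] [DecidableEq n] (Y : Matrix n n ℂ) (i j : n) :
    ‖Y i j‖ ≤ ‖Y‖ := by
  have h1 := nr_mulVec Y (Pi.single j 1)
  have h2 : nr (Pi.single j (1 : ℂ) : n → ℂ) = 1 := by
    unfold nr
    have : (WithLp.toLp 2 (Pi.single j (1 : ℂ) : n → ℂ) : EuclideanSpace ℂ n) =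
      EuclideanSpace.single j (1 : ℂ) := rfl
    rw [this]
    simp
  rw [h2, mul_one] at h1
  refine le_trans ?_ h1
  have h3 : (Y *ᵥ Pi.single j 1) i = Y i j := by simp
  rw [← h3]
  unfold nr
  exact PiLp.norm_apply_le (WithLp.toLp 2 (Y *ᵥ Pi.single j 1) : EuclideanSpace ℂ n) i

section one

variable {d L : ℕ} [NeZero L]

open scoped Matrix.Norms.L2Operator in
lemma norm_term_le {R : ℕ} (B : BoxOp d R) (hB : ‖B‖ ≤ 1) (u : Site L) :
    ‖term B u‖ ≤ (Fintype.card (Fin R × Fin R → Fin d) : ℝ) ^ 2 := by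
  refine (norm_term B u).trans ?_
  unfold nJ
  calc ∑ p, ∑ q, ‖B p q‖ ≤ ∑ _p : Fin R × Fin R → Fin d, ∑ _q : Fin R × Fin R → Fin d, (1 : ℝ) :=
        Finset.sum_le_sum fun p _ => Finset.sum_le_sum fun q _ => (entry_le' B p q).trans hB
    _ = _ := by
        simp only [Finset.sum_const, Finset.card_univ, nsmul_eq_mul, mul_one]
        ring

open scoped Matrix.Norms.L2Operator in
lemma ip_near (T : TorOp d L) (M : ℝ) (hT : ‖T‖ ≤ M) (Ψ ψ : (Site L → Fin d) → ℂ)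
    (hΨ : normSq Ψ = 1) (x : ℝ) (hx : x ≤ 1 / 4) (hn : nr (ψ - Ψ) ≤ x) :
    0 < normSq ψ ∧ ‖ip ψ (T *ᵥ ψ) / ((normSq ψ : ℝ) : ℂ) - ip Ψ (T *ᵥ Ψ)‖ ≤ 6 * M * x := by
  have hM0 : 0 ≤ M := (norm_nonneg _).trans hT
  have hx0 : 0 ≤ x := (nr_nonneg _).trans hn
  have hΨ1 : nr Ψ = 1 := nr_one Ψ hΨ
  have h1 : nr ψ ≤ 1 + x := by
    have := nr_add (ψ - Ψ) Ψ
    rw [sub_add_cancel] at this
    linarith
  have h2 : 1 - x ≤ nr ψ := by
    have := nr_add (-(ψ - Ψ)) ψ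
    have e : -(ψ - Ψ) + ψ = Ψ := by abel
    have e2 : nr (-(ψ - Ψ)) = nr (ψ - Ψ) := by
      have := nr_smul (-1 : ℂ) (ψ - Ψ)
      simpa using this
    rw [e, e2, hΨ1] at this
    linarith
  have h3 : 0 < nr ψ := by linarith
  have h4 : normSq ψ = nr ψ ^ 2 := (nr_sq ψ).symm
  have h5 : 0 < normSq ψ := by rw [h4]; positivity
  refine ⟨h5, ?_⟩
  have hTv : ∀ v : (Site L → Fin d) → ℂ, nr (T *ᵥ v) ≤ M * nr v := fun v =>
    (nr_mulVec T v).trans (mul_le_mul_of_nonneg_right hT (nr_nonneg v))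
  have e1 : ip ψ (T *ᵥ ψ) - ip Ψ (T *ᵥ Ψ) = ip (ψ - Ψ) (T *ᵥ ψ) + ip Ψ (T *ᵥ (ψ - Ψ)) := by
    rw [ip_eq, ip_eq, ip_eq, ip_eq, Matrix.mulVec_sub, WithLp.toLp_sub, WithLp.toLp_sub,
      inner_sub_left, inner_sub_right]
    ring
  have h6 : ‖ip ψ (T *ᵥ ψ) - ip Ψ (T *ᵥ Ψ)‖ ≤ 3 * M * x := by
    rw [e1]
    refine (norm_add_le _ _).trans ?_
    have k1 : ‖ip (ψ - Ψ) (T *ᵥ ψ)‖ ≤ x * (M * (1 + x)) :=
      (ip_le _ _).trans (mul_le_mul hn ((hTv ψ).trans (mul_le_mul_of_nonneg_left h1 hM0))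
        (nr_nonneg _) hx0)
    have k2 : ‖ip Ψ (T *ᵥ (ψ - Ψ))‖ ≤ 1 * (M * x) :=
      (ip_le _ _).trans (mul_le_mul hΨ1.le ((hTv _).trans (mul_le_mul_of_nonneg_left hn hM0))
        (nr_nonneg _) zero_le_one)
    nlinarith [mul_nonneg hM0 hx0]
  have h7 : ‖ip ψ (T *ᵥ ψ)‖ ≤ M * normSq ψ := by
    refine (ip_le _ _).trans ?_
    rw [h4]
    nlinarith [hTv ψ, nr_nonneg ψ]
  have h8 : |1 - normSq ψ| ≤ 3 * x := by
    rw [h4, abs_le]
    constructor <;> nlinarith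
  have hnc : ((normSq ψ : ℝ) : ℂ) ≠ 0 := by exact_mod_cast h5.ne'
  have e2 : ip ψ (T *ᵥ ψ) / ((normSq ψ : ℝ) : ℂ) - ip Ψ (T *ᵥ Ψ) =
      (ip ψ (T *ᵥ ψ) - ip Ψ (T *ᵥ Ψ)) +
        ip ψ (T *ᵥ ψ) / ((normSq ψ : ℝ) : ℂ) * ((1 - normSq ψ : ℝ) : ℂ) := by
    push_cast
    field_simp
    ring
  rw [e2]
  refine (norm_add_le _ _).trans ?_
  have h9 : ‖ip ψ (T *ᵥ ψ) / ((normSq ψ : ℝ) : ℂ) * ((1 - normSq ψ : ℝ) : ℂ)‖ ≤ M * (3 * x) := by
    rw [norm_mul, norm_div, Complex.norm_real, Complex.norm_real, Real.norm_eq_abs,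
      Real.norm_eq_abs, abs_of_pos h5]
    refine mul_le_mul ?_ h8 (abs_nonneg _) hM0
    rw [div_le_iff₀ h5]
    exact h7
  linarith

lemma term_smul {R : ℕ} (c : ℂ) (B : BoxOp d R) (u : Site L) : term (c • B) u = c • term B u := by
  ext s t
  have e : (c • term B u) s t = c * term B u s t := rfl
  rw [e]
  unfold term
  split_ifs
  · rfl
  · rw [mul_zero]

open scoped Matrix.Norms.L2Operator in
/-- close marginals give low energy -/
lemma energy_of_local {R : ℕ} (h : BoxOp d R) (Ψ : (Site L → Fin d) → ℂ) {a : ℕ}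
    (X : (Site L → Fin a) → (Site L → Fin d) → ℂ) (hX : 0 < ∑ t, normSq (X t)) (κ : ℝ)
    (hloc : ∀ (u : Site L) (B : BoxOp d R), ‖B‖ ≤ 1 →
          ‖(∑ t, ip (X t) (term B u *ᵥ X t)) / ((∑ t, normSq (X t) : ℝ) : ℂ) -
            ip Ψ (term B u *ᵥ Ψ)‖ ≤ κ / (L : ℝ) ^ 2) :
    ∑ t, (ip (X t) (ham h L *ᵥ X t)).re ≤
      (energy (ham h L) Ψ + κ * ‖h‖) * ∑ t, normSq (X t) := by
  have hL : (0 : ℝ) < L := by
    have := NeZero.pos L
    exact_mod_cast this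
  set N : ℝ := ∑ t, normSq (X t) with hN
  -- the estimate for the interaction itself
  have key : ∀ u : Site L, ‖(∑ t, ip (X t) (term h u *ᵥ X t)) / ((N : ℝ) : ℂ) -
      ip Ψ (term h u *ᵥ Ψ)‖ ≤ κ * ‖h‖ / (L : ℝ) ^ 2 := by
    intro u
    rcases (norm_nonneg h).lt_or_eq with hh | hh
    · have hc : (‖h‖ : ℂ) ≠ 0 := by exact_mod_cast hh.ne'
      have h1 := hloc u (((‖h‖ : ℝ) : ℂ)⁻¹ • h) (by
        rw [norm_smul, norm_inv, Complex.norm_real, norm_norm, inv_mul_cancel₀ hh.ne'])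
      have e1 : ∀ v : (Site L → Fin d) → ℂ, ip v (term h u *ᵥ v) =
          (‖h‖ : ℂ) * ip v (term (((‖h‖ : ℝ) : ℂ)⁻¹ • h) u *ᵥ v) := by
        intro v
        rw [term_smul, Matrix.smul_mulVec, ip_smul_right, ← mul_assoc, mul_inv_cancel₀ hc, one_mul]
      simp only [e1]
      rw [← Finset.mul_sum, mul_div_assoc, ← mul_sub, norm_mul, Complex.norm_real, norm_norm]
      calc ‖h‖ * _ ≤ ‖h‖ * (κ / (L : ℝ) ^ 2) := mul_le_mul_of_nonneg_left h1 hh.le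
        _ = _ := by ring
    · have h0 : h = 0 := norm_eq_zero.1 hh.symm
      have h1 : term h u = 0 := by
        rw [h0]
        have := term_smul (0 : ℂ) (0 : BoxOp d R) u
        simpa using this
      rw [h1, ← hh]
      simp [ip]
  have e2 : ∀ v : (Site L → Fin d) → ℂ, (ip v (ham h L *ᵥ v)).re =
      ∑ u : Site L, (ip v (term h u *ᵥ v)).re := by
    intro v
    unfold ham
    rw [Matrix.sum_mulVec]
    have : ip v (∑ u : Site L, term h u *ᵥ v) = ∑ u : Site L, ip v (term h u *ᵥ v) := by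
      unfold ip
      simp only [Finset.sum_apply, Finset.mul_sum]
      rw [Finset.sum_comm]
    rw [this, Complex.re_sum]
  simp only [e2]
  rw [Finset.sum_comm]
  unfold energy
  rw [e2 Ψ]
  have e3 : ∀ u : Site L, ∑ t, (ip (X t) (term h u *ᵥ X t)).re ≤
      ((ip Ψ (term h u *ᵥ Ψ)).re + κ * ‖h‖ / (L : ℝ) ^ 2) * N := by
    intro u
    have h1 := (Complex.abs_re_le_norm _).trans (key u)
    rw [Complex.sub_re, Complex.div_ofReal_re, Complex.re_sum] at h1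
    have h2 := (abs_le.1 h1).2
    have h3 : (∑ t, (ip (X t) (term h u *ᵥ X t)).re) / N ≤
        (ip Ψ (term h u *ᵥ Ψ)).re + κ * ‖h‖ / (L : ℝ) ^ 2 := by linarith
    rwa [div_le_iff₀ hX] at h3
  refine (Finset.sum_le_sum fun u _ => e3 u).trans (le_of_eq ?_)
  rw [← Finset.sum_mul, Finset.sum_add_distrib]
  congr 2
  rw [Finset.sum_const, Finset.card_univ, Fintype.card_prod, ZMod.card, nsmul_eq_mul]
  push_cast
  field_simp

end one

section family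

variable {d R : ℕ} {h : BoxOp d R} {Δ : ℝ} {Ψ : ∀ L : ℕ, (Site L → Fin d) → ℂ} {g : ℕ → ℝ}

/-- tensors which agree at all sites but one -/
theorem approx_to_butOne (hF : GappedFamily h Δ Ψ)
    (hg : ∃ L₁ : ℕ, ∀ L, L₁ ≤ L → Real.log L ≤ g L) {C : ℝ} {δ : ℕ → ℝ}
    (hA : ApproxAt Ψ g C δ) : ButOneAt Ψ g (|C| + 2) δ := by
  obtain ⟨L₁, hL₁⟩ := hF.ground
  obtain ⟨L₂, hL₂⟩ := hA
  obtain ⟨L₃, hL₃⟩ := hg
  refine ⟨max 3 (max L₁ (max L₂ L₃)), ?_⟩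
  intro L _ hL
  simp only [max_le_iff] at hL
  obtain ⟨h3, ha, hb, hc⟩ := hL
  obtain ⟨hn, hgr⟩ := hL₁ L ha
  obtain ⟨D, ψ, hD, hψ, herr⟩ := hL₂ L hb
  have hti := Pool.Agent.Q204.LP.ti_of_gapped h Δ (Ψ L) hgr
  obtain ⟨ψ', h1, h2⟩ := to_butOne (Ψ := Ψ L) hψ hn (by
    intro a
    obtain ⟨c, hc⟩ := hti (-a)
    refine ⟨c, ?_⟩
    funext s
    have := hc s
    unfold shv
    simp only [sub_eq_add_neg]
    exact this)
  rw [sqrt_normSq] at herr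
  refine ⟨_, ψ', ?_, h1, by rw [sqrt_normSq]; exact h2.trans herr⟩
  have hgl := hL₃ L hc
  have hl1 := log_ge_one h3
  have hLpos : (0 : ℝ) < L := by
    have : 0 < L := by omega
    exact_mod_cast this
  push_cast
  have e1 : (L : ℝ) ^ 2 ≤ Real.exp (2 * g L) := by
    rw [← Real.exp_log hLpos, ← Real.exp_nat_mul]
    refine Real.exp_le_exp.2 ?_
    push_cast
    linarith
  calc (D : ℝ) * (L : ℝ) ^ 2 ≤ Real.exp (|C| * g L) * Real.exp (2 * g L) := by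
        refine mul_le_mul (hD.trans (Real.exp_le_exp.2 ?_)) e1 (by positivity) (by positivity)
        exact mul_le_mul_of_nonneg_right (le_abs_self C) (by linarith)
    _ = Real.exp ((|C| + 2) * g L) := by
        rw [← Real.exp_add]
        congr 1
        ring

/-- translation invariant PEPS -/
theorem approx_to_TI (hg : ∃ L₁ : ℕ, ∀ L, L₁ ≤ L → Real.log L ≤ g L)
    (hTI : ∃ L₁ : ℕ, ∀ (L : ℕ) [NeZero L], L₁ ≤ L → ∀ a : Site L, shv a (Ψ L) = Ψ L) {C : ℝ}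
    {δ : ℕ → ℝ} (hA : ApproxAt Ψ g C δ) : TIAt Ψ g (|C| + 2) δ := by
  obtain ⟨L₁, hL₁⟩ := hTI
  obtain ⟨L₂, hL₂⟩ := hA
  obtain ⟨L₃, hL₃⟩ := hg
  refine ⟨max 3 (max L₁ (max L₂ L₃)), ?_⟩
  intro L _ hL
  simp only [max_le_iff] at hL
  obtain ⟨h3, ha, hb, hc⟩ := hL
  obtain ⟨D, ψ, hD, hψ, herr⟩ := hL₂ L hb
  obtain ⟨ψ', h1, h2⟩ := to_TI (Ψ := Ψ L) hψ (hL₁ L ha)
  rw [sqrt_normSq] at herr
  refine ⟨_, ψ', ?_, h1, by rw [sqrt_normSq]; exact h2.trans herr⟩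
  have hgl := hL₃ L hc
  have hl1 := log_ge_one h3
  have hLpos : (0 : ℝ) < L := by
    have : 0 < L := by omega
    exact_mod_cast this
  push_cast
  have e1 : (L : ℝ) ^ 2 ≤ Real.exp (2 * g L) := by
    rw [← Real.exp_log hLpos, ← Real.exp_nat_mul]
    refine Real.exp_le_exp.2 ?_
    push_cast
    linarith
  calc (D : ℝ) * (L : ℝ) ^ 2 ≤ Real.exp (|C| * g L) * Real.exp (2 * g L) := by
        refine mul_le_mul (hD.trans (Real.exp_le_exp.2 ?_)) e1 (by positivity) (by positivity)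
        exact mul_le_mul_of_nonneg_right (le_abs_self C) (by linarith)
    _ = Real.exp ((|C| + 2) * g L) := by
        rw [← Real.exp_add]
        congr 1
        ring

open scoped Matrix.Norms.L2Operator in
/-- tiny errors give close marginals -/
theorem tiny_to_local (hF : GappedFamily h Δ Ψ)
    (hg : ∃ L₁ : ℕ, ∀ L, L₁ ≤ L → Real.log L ≤ g L) {C : ℝ}
    (hA : ApproxAt Ψ g C fun L => Real.exp (-(3 * g L))) {κ : ℝ} (hκ : 0 < κ) :
    LocalAt R Ψ g C κ := by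
  obtain ⟨L₁, hL₁⟩ := hF.ground
  obtain ⟨L₂, hL₂⟩ := hA
  obtain ⟨L₃, hL₃⟩ := hg
  set M : ℝ := (Fintype.card (Fin R × Fin R → Fin d) : ℝ) ^ 2 with hM
  obtain ⟨L₄, hL₄⟩ := exists_nat_ge (6 * M / κ)
  refine ⟨max 3 (max L₁ (max L₂ (max L₃ L₄))), ?_⟩
  intro L _ hL
  simp only [max_le_iff] at hL
  obtain ⟨h3, ha, hb, hc, hd⟩ := hL
  obtain ⟨hn, hgr⟩ := hL₁ L ha
  obtain ⟨D, ψ, hD, hψ, herr⟩ := hL₂ L hb
  rw [sqrt_normSq] at herr
  beta_reduce at herr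
  have hL3 : (3 : ℝ) ≤ L := by exact_mod_cast h3
  have hLpos : (0 : ℝ) < L := by linarith
  have hgl := hL₃ L hc
  have hx : Real.exp (-(3 * g L)) ≤ 1 / (L : ℝ) ^ 3 := by
    have e1 : (1 : ℝ) / (L : ℝ) ^ 3 = Real.exp (-(3 * Real.log L)) := by
      rw [Real.exp_neg, one_div]
      congr 1
      have : (3 : ℝ) * Real.log L = ((3 : ℕ) : ℝ) * Real.log L := by norm_num
      rw [this, Real.exp_nat_mul, Real.exp_log hLpos]
    rw [e1]
    exact Real.exp_le_exp.2 (by linarith)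
  have hx4 : 1 / (L : ℝ) ^ 3 ≤ 1 / 4 := by
    refine one_div_le_one_div_of_le (by norm_num) ?_
    nlinarith [mul_self_nonneg ((L : ℝ)), mul_le_mul hL3 hL3 (by norm_num) hLpos.le]
  have hsum : ∀ {E : Type} [AddCommMonoid E] (f : ((Site L → Fin d) → ℂ) → E),
      ∑ _t : Site L → Fin 1, f ψ = f ψ := by
    intro E _ f
    rw [Finset.sum_const, Finset.card_univ]
    simp
  refine ⟨1, D, fun _ => ψ, hD, ?_, ?_, ?_⟩
  · obtain ⟨A, hA⟩ := hψ
    exact ⟨fun x i _ => A x i, fun _ => hA⟩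
  · rw [hsum fun ψ => normSq ψ]
    exact (ip_near (0 : TorOp d L) 0 norm_zero.le (Ψ L) ψ hn _ hx4 (herr.trans hx)).1
  · intro u B hB
    rw [hsum fun ψ => normSq ψ, hsum fun ψ => ip ψ (term B u *ᵥ ψ)]
    refine (ip_near (term B u) M (norm_term_le B hB u) (Ψ L) ψ hn _ hx4 (herr.trans hx)).2.trans ?_
    have h5 : 6 * M / κ ≤ L := hL₄.trans (by exact_mod_cast hd)
    rw [div_le_iff₀ hκ] at h5
    rw [mul_one_div, div_le_div_iff₀ (by positivity) (by positivity)]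
    have : κ * (L : ℝ) ^ 3 = L * κ * (L : ℝ) ^ 2 := by ring
    rw [this]
    exact mul_le_mul_of_nonneg_right h5 (by positivity)

open scoped Matrix.Norms.L2Operator in
/-- close marginals give low energy -/
theorem local_to_low (hF : GappedFamily h Δ Ψ)
    (hg : ∃ L₁ : ℕ, ∀ L, L₁ ≤ L → Real.log L ≤ g L) {C κ : ℝ} (hκ : κ * ‖h‖ < Δ)
    (hA : LocalAt R Ψ g C κ) : ∃ C, LowAt h Δ Ψ g C := by
  obtain ⟨L₂, hL₂⟩ := hA
  obtain ⟨L₃, hL₃⟩ := hg
  have hΔ := hF.gap_pos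
  set η : ℝ := 1 - κ * ‖h‖ / Δ with hη
  have hη0 : 0 < η := by
    rw [hη, sub_pos, div_lt_one hΔ]
    exact hκ
  refine ⟨|C| + |Real.log η|, max 3 (max L₂ L₃), ?_⟩
  intro L _ hL
  simp only [max_le_iff] at hL
  obtain ⟨h3, hb, hc⟩ := hL
  obtain ⟨a, D, X, h1, h2, h4, h5⟩ := hL₂ L hb
  have hγ1 : 1 ≤ g L := (log_ge_one h3).trans (hL₃ L hc)
  have hAl := abs_nonneg (Real.log η)
  have hAC := abs_nonneg C
  refine ⟨a, D, X, h1.trans (Real.exp_le_exp.2 ?_), h2, h4, ?_⟩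
  · exact mul_le_mul_of_nonneg_right (by linarith [le_abs_self C]) (by linarith)
  · refine (energy_of_local h (Ψ L) X h4 κ h5).trans ?_
    refine mul_le_mul_of_nonneg_right ?_ h4.le
    have h8 : Real.exp (-((|C| + |Real.log η|) * g L)) ≤ η := by
      conv_rhs => rw [← Real.exp_log hη0]
      refine Real.exp_le_exp.2 ?_
      have h9 : |Real.log η| * 1 ≤ (|C| + |Real.log η|) * g L :=
        mul_le_mul (by linarith) hγ1 zero_le_one (by linarith)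
      linarith [neg_abs_le (Real.log η)]
    have h9 : κ * ‖h‖ = Δ * (1 - η) := by
      rw [hη]; field_simp; ring
    rw [h9]
    have := mul_le_mul_of_nonneg_left h8 hΔ.le
    linarith

end family

end Pool.Agent.Q204.TS
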