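import Pool.Agent.Q204.TS.Sym

/-! # Translation invariant PEPS, and PEPS whose tensors agree at all sites but one -/

set_option autoImplicit false

open scoped BigOperators Matrix
open Finset

namespace Pool.Agent.Q204.TS

open Pool.Agent.TH235.PP Pool.Agent.Results.MP_953b23_mp.OverlapBoosting

/-- `ψ` is the vector of a PEPS of bond dimension `D` with the same tensor at every site. -/
def IsTI {d L : ℕ} [NeZero L] (D : ℕ) (ψ : (Site L → Fin d) → ℂ) : Prop :=
  ∃ A : Fin d → Fin D → Fin D → Fin D → Fin D → ℂ, ψ = contract fun _ : Site L => A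

/-- `ψ` is the vector of a PEPS of bond dimension `D` with the same tensor at every site except
the origin. -/
def IsTIButOne {d L : ℕ} [NeZero L] (D : ℕ) (ψ : (Site L → Fin d) → ℂ) : Prop :=
  ∃ A A₀ : Fin d → Fin D → Fin D → Fin D → Fin D → ℂ,
    ψ = contract fun x : Site L => if x = 0 then A₀ else A

variable {d L : ℕ} [NeZero L]

lemma contract_equiv {K : Type} [Fintype K] {n : ℕ} (e : K ≃ Fin n)
    (A : Site L → Fin d → K → K → K → K → ℂ) :
    contract A = contract (K := Fin n) fun x a l r dn up =>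
      A x a (e.symm l) (e.symm r) (e.symm dn) (e.symm up) := by
  classical
  funext s
  unfold contract
  refine Fintype.sum_equiv (Equiv.arrowCongr (Equiv.refl _) e) _ _ fun h => ?_
  refine Fintype.sum_equiv (Equiv.arrowCongr (Equiv.refl _) e) _ _ fun v => ?_
  refine Finset.prod_congr rfl fun x _ => ?_
  simp [Equiv.arrowCongr]

lemma card_KS (D : ℕ) : Fintype.card (Fin D × Site L) = D * L ^ 2 := by
  rw [Fintype.card_prod, Fintype.card_fin, Fintype.card_prod, ZMod.card]
  ring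

/-- The vector of the shifted configurations. -/
def shv (a : Site L) (f : (Site L → Fin d) → ℂ) : (Site L → Fin d) → ℂ :=
  fun s => f fun x => s (x - a)

omit [NeZero L] in
lemma shv_sub (a : Site L) (f g : (Site L → Fin d) → ℂ) : shv a (f - g) = shv a f - shv a g := rfl

lemma nr_shv (a : Site L) (f : (Site L → Fin d) → ℂ) : nr (shv a f) = nr f := by
  have h : nr (shv a f) ^ 2 = nr f ^ 2 := by
    rw [nr_sq, nr_sq]
    unfold normSq shv
    exact Fintype.sum_equiv (Equiv.arrowCongr (Equiv.subRight a).symm (Equiv.refl (Fin d))) _ _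
      fun s => rfl
  exact (sq_eq_sq₀ (nr_nonneg _) (nr_nonneg _)).1 h

lemma nr_sum_le {ι : Type*} (s : Finset ι) (f : ι → (Site L → Fin d) → ℂ) :
    nr (∑ i ∈ s, f i) ≤ ∑ i ∈ s, nr (f i) := by
  classical
  induction s using Finset.induction_on with
  | empty =>
    rw [Finset.sum_empty, Finset.sum_empty]
    have := nr_smul (0 : ℂ) (0 : (Site L → Fin d) → ℂ)
    simpa using this.le
  | insert a s ha ih =>
    rw [Finset.sum_insert ha, Finset.sum_insert ha]
    exact (nr_add _ _).trans (by linarith)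

/-- averaging over the translations -/
lemma avg_close (Ψ ψ : (Site L → Fin d) → ℂ) (φ χ : Site L → ℂ)
    (hχ : ∀ a, shv a Ψ = χ a • Ψ) (h1 : ∀ a, φ a * χ a = 1 / ((L : ℂ) ^ 2))
    (h2 : ∀ a, ‖φ a‖ = 1 / ((L : ℝ) ^ 2)) :
    nr ((∑ a : Site L, φ a • shv a ψ) - Ψ) ≤ nr (ψ - Ψ) := by
  have hL : (L : ℂ) ≠ 0 := by exact_mod_cast NeZero.ne L
  have hLr : (L : ℝ) ≠ 0 := by exact_mod_cast NeZero.ne L
  have hcard : Fintype.card (Site L) = L ^ 2 := by
    rw [Fintype.card_prod, ZMod.card]; ring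
  have e1 : (∑ a : Site L, φ a • shv a ψ) - Ψ = ∑ a : Site L, φ a • shv a (ψ - Ψ) := by
    have e2 : ∑ a : Site L, φ a • shv a Ψ = Ψ := by
      have : ∀ a : Site L, φ a • shv a Ψ = (1 / ((L : ℂ) ^ 2)) • Ψ := by
        intro a
        rw [hχ, smul_smul, h1]
      simp only [this, Finset.sum_const, Finset.card_univ, hcard]
      rw [← Nat.cast_smul_eq_nsmul ℂ, smul_smul]
      push_cast
      rw [mul_one_div_cancel (pow_ne_zero 2 hL), one_smul]
    conv_lhs => rw [← e2]
    rw [← Finset.sum_sub_distrib]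
    refine Finset.sum_congr rfl fun a _ => ?_
    rw [shv_sub, smul_sub]
  rw [e1]
  refine (nr_sum_le _ _).trans (le_of_eq ?_)
  have e3 : ∀ a : Site L, nr (φ a • shv a (ψ - Ψ)) = 1 / ((L : ℝ) ^ 2) * nr (ψ - Ψ) := by
    intro a
    rw [nr_smul, h2, nr_shv]
  simp only [e3, Finset.sum_const, Finset.card_univ, hcard, nsmul_eq_mul]
  push_cast
  field_simp

lemma contract_symT' {K : Type} [Fintype K] (C : Site L → Fin d → K → K → K → K → ℂ)
    (W : Site L → Site L → ℂ) :
    contract (symT C W) = ∑ a : Site L, (∏ x, W x (x + a)) • shv a (contract C) := by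
  funext s
  rw [contract_symT, Finset.sum_apply]
  rfl

/-- From site dependent tensors to tensors which agree at all sites but one. -/
theorem to_butOne {D : ℕ} {ψ Ψ : (Site L → Fin d) → ℂ} (hψ : IsPEPS D ψ) (hΨ : normSq Ψ = 1)
    (hTI : ∀ a : Site L, ∃ c : ℂ, shv a Ψ = c • Ψ) :
    ∃ ψ' : (Site L → Fin d) → ℂ, IsTIButOne (D * L ^ 2) ψ' ∧ nr (ψ' - Ψ) ≤ nr (ψ - Ψ) := by
  choose χ hχ using hTI
  obtain ⟨C, hC⟩ := hψ
  have hn : nr Ψ = 1 := nr_one Ψ hΨ
  have hχ1 : ∀ a, ‖χ a‖ = 1 := by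
    intro a
    have h1 := nr_shv a Ψ
    rw [hχ a, nr_smul, hn, mul_one] at h1
    exact h1
  have hL : (L : ℂ) ≠ 0 := by exact_mod_cast NeZero.ne L
  set φ : Site L → ℂ := fun a => (1 / ((L : ℂ) ^ 2)) * (starRingEnd ℂ) (χ a) with hφ
  refine ⟨∑ a : Site L, φ a • shv a ψ, ?_, avg_close Ψ ψ φ χ hχ ?_ ?_⟩
  · have e1 : contract (symT C fun x p => if x = 0 then φ p else 1) =
        ∑ a : Site L, φ a • shv a ψ := by
      rw [contract_symT']
      refine Finset.sum_congr rfl fun a _ => ?_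
      rw [hC]
      congr 1
      rw [Finset.prod_ite_eq' Finset.univ (0 : Site L) (fun x => φ (x + a))]
      simp
    rw [← e1, contract_equiv (Fintype.equivFinOfCardEq (card_KS D))]
    set e := Fintype.equivFinOfCardEq (card_KS (L := L) D)
    refine ⟨fun a l r dn up => symT C (fun _ _ => 1) 0 a (e.symm l) (e.symm r) (e.symm dn)
      (e.symm up), fun a l r dn up => symT C (fun _ p => φ p) 0 a (e.symm l) (e.symm r)
      (e.symm dn) (e.symm up), ?_⟩
    congr 1
    funext x
    by_cases hx : x = 0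
    · rw [if_pos hx]
      unfold symT
      simp only [if_pos hx]
    · rw [if_neg hx]
      unfold symT
      simp only [if_neg hx]
  · intro a
    rw [hφ]
    beta_reduce
    rw [mul_assoc, mul_comm ((starRingEnd ℂ) (χ a)), Complex.mul_conj, Complex.normSq_eq_norm_sq,
      hχ1 a]
    simp
  · intro a
    rw [hφ]
    beta_reduce
    rw [norm_mul, RCLike.norm_conj, hχ1 a]
    simp

/-- From site dependent tensors to a translation invariant PEPS, for vectors of momentum zero. -/
theorem to_TI {D : ℕ} {ψ Ψ : (Site L → Fin d) → ℂ} (hψ : IsPEPS D ψ)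
    (hTI : ∀ a : Site L, shv a Ψ = Ψ) :
    ∃ ψ' : (Site L → Fin d) → ℂ, IsTI (D * L ^ 2) ψ' ∧ nr (ψ' - Ψ) ≤ nr (ψ - Ψ) := by
  obtain ⟨C, hC⟩ := hψ
  have hL : (L : ℂ) ≠ 0 := by exact_mod_cast NeZero.ne L
  have hLr : (0 : ℝ) < L := by
    have := NeZero.pos L
    exact_mod_cast this
  have hcard : Fintype.card (Site L) = L ^ 2 := by
    rw [Fintype.card_prod, ZMod.card]; ring
  have hL2 : L ^ 2 ≠ 0 := pow_ne_zero 2 (NeZero.ne L)
  set c : ℝ := (1 / (L : ℝ) ^ 2) ^ (((L ^ 2 : ℕ) : ℝ)⁻¹) with hc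
  have hcp : c ^ (L ^ 2) = 1 / (L : ℝ) ^ 2 :=
    Real.rpow_inv_natCast_pow (by positivity) hL2
  refine ⟨∑ a : Site L, (1 / ((L : ℂ) ^ 2)) • shv a ψ, ?_, avg_close Ψ ψ _ (fun _ => 1) ?_ ?_ ?_⟩
  · have e1 : contract (symT C fun _ _ => (c : ℂ)) =
        ∑ a : Site L, (1 / ((L : ℂ) ^ 2)) • shv a ψ := by
      rw [contract_symT']
      refine Finset.sum_congr rfl fun a _ => ?_
      rw [hC, Finset.prod_const, Finset.card_univ, hcard]
      congr 1
      rw [← Complex.ofReal_pow, hcp]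
      push_cast
      rfl
    rw [← e1, contract_equiv (Fintype.equivFinOfCardEq (card_KS D))]
    exact ⟨fun a l r dn up => symT C (fun _ _ => (c : ℂ)) 0 a
      ((Fintype.equivFinOfCardEq (card_KS D)).symm l)
      ((Fintype.equivFinOfCardEq (card_KS D)).symm r)
      ((Fintype.equivFinOfCardEq (card_KS D)).symm dn)
      ((Fintype.equivFinOfCardEq (card_KS D)).symm up), rfl⟩
  · intro a
    rw [hTI a, one_smul]
  · intro a
    rw [mul_one]
  · intro a
    simp

end Pool.Agent.Q204.TS
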