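import Pool.Agent.Results.MP_953b23_mp.EveryScale

/-! # Symmetrisation of PEPS -/

set_option autoImplicit false

open scoped BigOperators
open Finset

namespace Pool.Agent.Q204.TS

open Pool.Agent.TH235.PP

section uniq

variable {L : ℕ}

lemma lab_unique [NeZero L] (p : Site L → Site L) (h1 : ∀ x : Site L, p (x.1 - 1, x.2) + (1, 0) = p x)
    (h2 : ∀ x : Site L, p (x.1, x.2 - 1) + (0, 1) = p x) (x : Site L) : p x = x + p 0 := by
  have c1 : ∀ (n : ℕ) (y : ZMod L), p ((n : ZMod L), y) = p (0, y) + ((n : ZMod L), 0) := by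
    intro n y
    induction n with
    | zero => simp
    | succ n ih =>
      rw [← h1 (((n + 1 : ℕ) : ZMod L), y)]
      have e : (((n + 1 : ℕ) : ZMod L) - 1 : ZMod L) = n := by push_cast; ring
      simp only [e]
      rw [ih, add_assoc]
      congr 1
      ext <;> simp
  have c2 : ∀ (n : ℕ), p (0, (n : ZMod L)) = p (0, 0) + (0, (n : ZMod L)) := by
    intro n
    induction n with
    | zero => simp
    | succ n ih =>
      rw [← h2 (0, ((n + 1 : ℕ) : ZMod L))]
      have e : (((n + 1 : ℕ) : ZMod L) - 1 : ZMod L) = n := by push_cast; ring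
      simp only [e]
      rw [ih, add_assoc]
      congr 1
      ext <;> simp
  obtain ⟨x1, x2⟩ := x
  have e1 : ((x1.val : ℕ) : ZMod L) = x1 := ZMod.natCast_zmod_val x1
  have e2 : ((x2.val : ℕ) : ZMod L) = x2 := ZMod.natCast_zmod_val x2
  have k1 := c1 x1.val x2
  have k2 := c2 x2.val
  rw [e1] at k1
  rw [e2] at k2
  rw [k1, k2]
  have e3 : (0 : Site L) = (0, 0) := rfl
  rw [e3]
  ext
  · simp [add_comm]
  · simp [add_comm]

end uniq

variable {d L : ℕ} [NeZero L] {K : Type} [Fintype K]

/-- the tensors with position labels -/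
def symT (C : Site L → Fin d → K → K → K → K → ℂ) (W : Site L → Site L → ℂ) (x : Site L)
    (s : Fin d) (l r dn up : K × Site L) : ℂ :=
  if r.2 = up.2 ∧ l.2 + (1, 0) = r.2 ∧ dn.2 + (0, 1) = up.2 then
    W x r.2 * C r.2 s l.1 r.1 dn.1 up.1 else 0

omit [Fintype K] in
lemma sum_split [Fintype K] (F : (Site L → K × Site L) → ℂ) :
    ∑ h, F h = ∑ hp : Site L → Site L, ∑ hK : Site L → K, F (fun x => (hK x, hp x)) := by
  rw [← Fintype.sum_prod_type' (fun (hp : Site L → Site L) (hK : Site L → K) =>
    F (fun x => (hK x, hp x)))]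
  exact Fintype.sum_equiv ((Equiv.arrowProdEquivProdArrow _ _ _).trans (Equiv.prodComm _ _)) _ _
    fun h => rfl

theorem contract_symT (C : Site L → Fin d → K → K → K → K → ℂ) (W : Site L → Site L → ℂ)
    (s : Site L → Fin d) :
    contract (symT C W) s =
      ∑ a : Site L, (∏ x, W x (x + a)) * contract C (fun x => s (x - a)) := by
  unfold contract
  rw [sum_split]
  simp only [sum_split (L := L) (K := K)]
  -- exchange the sums
  have e1 : ∀ hp : Site L → Site L, (∑ hK : Site L → K, ∑ vp : Site L → Site L,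
      ∑ vK : Site L → K, ∏ x, symT C W x (s x) (hK (x.1 - 1, x.2), hp (x.1 - 1, x.2))
        (hK x, hp x) (vK (x.1, x.2 - 1), vp (x.1, x.2 - 1)) (vK x, vp x)) =
      ∑ vp : Site L → Site L, ∑ hK : Site L → K,
      ∑ vK : Site L → K, ∏ x, symT C W x (s x) (hK (x.1 - 1, x.2), hp (x.1 - 1, x.2))
        (hK x, hp x) (vK (x.1, x.2 - 1), vp (x.1, x.2 - 1)) (vK x, vp x) :=
    fun hp => Finset.sum_comm
  simp only [e1]
  rw [← Fintype.sum_prod_type' (fun (hp vp : Site L → Site L) => ∑ hK : Site L → K,
      ∑ vK : Site L → K, ∏ x, symT C W x (s x) (hK (x.1 - 1, x.2), hp (x.1 - 1, x.2))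
        (hK x, hp x) (vK (x.1, x.2 - 1), vp (x.1, x.2 - 1)) (vK x, vp x))]
  symm
  apply Fintype.sum_of_injective (fun a : Site L => ((fun x => x + a, fun x => x + a) :
    (Site L → Site L) × (Site L → Site L)))
  · intro a b hab
    have := congrFun (congrArg Prod.fst hab) 0
    simpa using this
  · rintro ⟨hp, vp⟩ hnot
    refine Finset.sum_eq_zero fun hK _ => Finset.sum_eq_zero fun vK _ => ?_
    by_contra hne
    rw [Finset.prod_eq_zero_iff] at hne
    push Not at hne
    have hc : ∀ x : Site L, hp x = vp x ∧ hp (x.1 - 1, x.2) + (1, 0) = hp x ∧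
        vp (x.1, x.2 - 1) + (0, 1) = vp x := by
      intro x
      by_contra hcon
      apply hne x (mem_univ x)
      unfold symT
      rw [if_neg hcon]
    have hvp : vp = hp := funext fun x => (hc x).1.symm
    subst hvp
    apply hnot
    refine ⟨vp 0, ?_⟩
    have := fun x => lab_unique vp (fun x => (hc x).2.1) (fun x => (hc x).2.2) x
    refine Prod.ext ?_ ?_ <;> · funext x; exact (this x).symm
  · intro a
    have key : ∀ (hK vK : Site L → K), (∏ x : Site L, symT C W x (s x)
        (hK (x.1 - 1, x.2), ((x.1 - 1, x.2) : Site L) + a) (hK x, x + a)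
        (vK (x.1, x.2 - 1), ((x.1, x.2 - 1) : Site L) + a) (vK x, x + a)) =
        (∏ x, W x (x + a)) * ∏ x : Site L, C (x + a) (s x) (hK (x.1 - 1, x.2)) (hK x)
          (vK (x.1, x.2 - 1)) (vK x) := by
      intro hK vK
      rw [← Finset.prod_mul_distrib]
      refine Finset.prod_congr rfl fun x _ => ?_
      unfold symT
      rw [if_pos]
      refine ⟨rfl, ?_, ?_⟩
      · ext
        · simp; ring
        · simp
      · ext
        · simp
        · simp; ring
    simp only [key]
    simp only [← Finset.mul_sum]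
    congr 1
    -- reindexing
    refine Fintype.sum_equiv (Equiv.arrowCongr (Equiv.subRight a) (Equiv.refl K)) _ _ fun h => ?_
    refine Fintype.sum_equiv (Equiv.arrowCongr (Equiv.subRight a) (Equiv.refl K)) _ _ fun v => ?_
    refine Fintype.prod_equiv (Equiv.subRight a) _ _ fun x => ?_
    have e2 : ∀ y : Site L, (Equiv.subRight a).symm y = y + a := fun y => rfl
    have e3 : (Equiv.subRight a) x = x - a := rfl
    simp only [Equiv.arrowCongr_apply, Function.comp_apply, Equiv.coe_refl, id_eq, e2, e3]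
    have e4 : x - a + a = x := sub_add_cancel x a
    have e5 : (((x - a).1 - 1, (x - a).2) : Site L) + a = (x.1 - 1, x.2) := by
      ext
      · simp; ring
      · simp
    have e6 : (((x - a).1, (x - a).2 - 1) : Site L) + a = (x.1, x.2 - 1) := by
      ext
      · simp
      · simp; ring
    rw [e4, e5, e6]

end Pool.Agent.Q204.TS
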